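import Mathlib

open Set UpperHalfPlane

namespace Pool.Agent.Results.MP_44e237_gt.Fold

def IsQIEmbedding {A B : Type} [MetricSpace A] [MetricSpace B] (f : A → B) : Prop :=
  ∃ L C : ℝ, 1 ≤ L ∧ 0 ≤ C ∧
    ∀ a a', L⁻¹ * dist a a' - C ≤ dist (f a) (f a') ∧ dist (f a) (f a') ≤ L * dist a a' + C

def graph {X : Type} (h : X → ℝ) : Set (WithLp 2 (X × ℝ)) := range fun x => WithLp.toLp 2 (x, h x)

def IsLipschitzGraph {X : Type} [MetricSpace X] (f : X → WithLp 2 (X × ℝ)) : Prop :=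
  ∃ (h : X → ℝ) (K : NNReal), LipschitzWith K h ∧ Metric.hausdorffEDist (range f) (graph h) ≠ ⊤

theorem d2 {A B : Type} [MetricSpace A] [MetricSpace B] (x y : WithLp 2 (A × B)) :
    dist x y = √(dist x.fst y.fst ^ 2 + dist x.snd y.snd ^ 2) := by
  rw [WithLp.prod_dist_eq_add (by norm_num), Real.sqrt_eq_rpow]
  norm_num

theorem d2_le {A B : Type} [MetricSpace A] [MetricSpace B] (x y : WithLp 2 (A × B)) :
    dist x y ≤ dist x.fst y.fst + dist x.snd y.snd := by
  rw [d2]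
  exact Real.sqrt_le_iff.2 ⟨by positivity, by
    nlinarith [mul_nonneg (dist_nonneg (x := x.fst) (y := y.fst))
      (dist_nonneg (x := x.snd) (y := y.snd))]⟩

theorem fold {X : Type} [MetricSpace X] (σ : X → X) (s : X → ℝ)
    (iso : ∀ x y, dist (σ x) (σ y) = dist x y)
    (neg : ∀ x, s (σ x) = -s x) (le : ∀ x y, 0 ≤ s x → s y ≤ 0 → dist x (σ y) ≤ dist x y)
    (far : ∀ R : ℝ, ∃ x, ∀ y, 0 ≤ s y → R ≤ dist x y) :
    ∃ f : X → WithLp 2 (X × ℝ), IsQIEmbedding f ∧ ¬ IsLipschitzGraph f := by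
  set f : X → WithLp 2 (X × ℝ) := fun x =>
    if 0 ≤ s x then WithLp.toLp 2 (x, dist x (σ x)) else WithLp.toLp 2 (σ x, -dist x (σ x)) with hf
  have mix : ∀ x y, 0 ≤ s x → ¬ 0 ≤ s y →
      (5 : ℝ)⁻¹ * dist x y - 0 ≤ dist (f x) (f y) ∧ dist (f x) (f y) ≤ 5 * dist x y + 0 := by
    intro x y hx hy
    have h1 := WithLp.dist_fst_le (f x) (f y)
    have h2 := WithLp.dist_snd_le (f x) (f y)
    have h3 := d2_le (f x) (f y)
    simp only [hf, if_pos hx, if_neg hy, WithLp.toLp_fst, WithLp.toLp_snd, Real.dist_eq,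
      sub_neg_eq_add] at h1 h2 h3 ⊢
    rw [abs_of_nonneg (by positivity)] at h2 h3
    have a := le x y hx (not_le.1 hy).le
    have b := dist_triangle x (σ y) y
    have c := dist_triangle x (σ y) (σ x)
    have d := dist_triangle_left y (σ y) x
    rw [iso, dist_comm y x] at c
    rw [dist_comm (σ y) y] at b
    have e := dist_nonneg (x := x) (y := σ x)
    have g := dist_nonneg (x := x) (y := y)
    constructor <;> linarith
  refine ⟨f, ⟨5, 0, by norm_num, le_rfl, fun x y => ?_⟩, ?_⟩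
  · have k : |dist x (σ x) - dist y (σ y)| ≤ 2 * dist x y := by
      have := dist_dist_dist_le x (σ x) y (σ y)
      rw [iso, Real.dist_eq] at this
      linarith
    have g := dist_nonneg (x := x) (y := y)
    have h1 := WithLp.dist_fst_le (f x) (f y)
    have h3 := d2_le (f x) (f y)
    by_cases hx : 0 ≤ s x <;> by_cases hy : 0 ≤ s y
    · simp only [hf, if_pos hx, if_pos hy, WithLp.toLp_fst, WithLp.toLp_snd,
        Real.dist_eq] at h1 h3 ⊢
      constructor <;> linarith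
    · exact mix x y hx hy
    · rw [dist_comm x y, dist_comm (f x)]
      exact mix y x hy hx
    · simp only [hf, if_neg hx, if_neg hy, WithLp.toLp_fst, WithLp.toLp_snd, dist_neg_neg,
        Real.dist_eq, iso] at h1 h3 ⊢
      constructor <;> linarith
  · rintro ⟨h, -, -, H⟩
    obtain ⟨x, hx⟩ := far (Metric.hausdorffDist (range f) (graph h) + 1)
    obtain ⟨_, ⟨y, rfl⟩, hy⟩ := Metric.exists_dist_lt_of_hausdorffDist_lt'
      (r := Metric.hausdorffDist (range f) (graph h) + 1) (y := WithLp.toLp 2 (x, h x))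
      (t := graph h) ⟨x, rfl⟩
      (lt_add_one _) H
    have h1 := WithLp.dist_fst_le (f y) (WithLp.toLp 2 (x, h x))
    have h2 : 0 ≤ s (f y).fst := by
      simp only [hf]
      split_ifs with c
      · exact c
      · rw [WithLp.toLp_fst, neg]; linarith
    have h3 := hx _ h2
    rw [dist_comm] at h3
    exact absurd (h3.trans h1) (not_le.2 hy)

def σ (z : ℍ) : ℍ := ⟨⟨-z.re, z.im⟩, z.im_pos⟩

theorem cosh_le {a b c d : ℍ} (h : Real.cosh (dist a b) ≤ Real.cosh (dist c d)) :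
    dist a b ≤ dist c d := by
  rwa [Real.cosh_le_cosh, abs_of_nonneg dist_nonneg, abs_of_nonneg dist_nonneg] at h

theorem σ_iso (z w : ℍ) : dist (σ z) (σ w) = dist z w := by
  have : Real.cosh (dist (σ z) (σ w)) = Real.cosh (dist z w) := by
    rw [cosh_dist', cosh_dist']
    simp only [σ, mk_re, mk_im]
    ring
  exact le_antisymm (cosh_le this.le) (cosh_le this.ge)

theorem σ_le (z w : ℍ) (hz : 0 ≤ z.re) (hw : w.re ≤ 0) : dist z (σ w) ≤ dist z w := by
  refine cosh_le ?_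
  rw [cosh_dist', cosh_dist']
  simp only [σ, mk_re, mk_im]
  have := z.im_pos
  have := w.im_pos
  exact div_le_div_of_nonneg_right (by nlinarith) (by positivity)

theorem far (R : ℝ) : ∃ z : ℍ, ∀ w : ℍ, 0 ≤ w.re → R ≤ dist z w := by
  refine ⟨⟨⟨-Real.cosh R, 1⟩, one_pos⟩, fun w hw => (le_abs_self R).trans ?_⟩
  rw [← abs_of_nonneg (dist_nonneg (y := w)), ← Real.cosh_le_cosh, cosh_dist']
  simp only [mk_re, mk_im]
  have := w.im_pos
  rw [le_div_iff₀ (by positivity)]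
  nlinarith [sq_nonneg (Real.cosh R - w.im), Real.cosh_pos R, mul_nonneg hw (Real.cosh_pos R).le]

theorem result : (∃ f : ℍ → WithLp 2 (ℍ × ℝ), IsQIEmbedding f ∧ ¬ IsLipschitzGraph f) ∧
    ∀ (Y : Type) [MetricSpace Y] [Nonempty Y],
      ∃ f : WithLp 2 (ℍ × Y) → WithLp 2 (WithLp 2 (ℍ × Y) × ℝ),
        IsQIEmbedding f ∧ ¬ IsLipschitzGraph f := by
  refine ⟨fold σ re σ_iso (fun z => rfl) σ_le far, fun Y _ _ =>
    fold (fun x => WithLp.toLp 2 (σ x.fst, x.snd)) (fun x => x.fst.re) (fun x y => ?_)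
      (fun x => rfl) (fun x y hx hy => ?_) fun R => ?_⟩
  · rw [d2, d2]; simp [σ_iso]
  · rw [d2, d2]
    exact Real.sqrt_le_sqrt (add_le_add (pow_le_pow_left₀ dist_nonneg (σ_le _ _ hx hy) 2) le_rfl)
  · obtain ⟨z, hz⟩ := far R
    exact ⟨WithLp.toLp 2 (z, Classical.arbitrary Y), fun y hy =>
      (hz _ hy).trans (WithLp.dist_fst_le (WithLp.toLp 2 (z, Classical.arbitrary Y)) y)⟩

end Pool.Agent.Results.MP_44e237_gt.Fold
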